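import Pool.Agent.W_MP_308f9e_co_h1.Main

/-!
# Interlacing of the Chow polynomial and the augmented Chow polynomial for nonnegative h-vectors
-/

open Polynomial

namespace Pool.Agent.Results.MP_308f9e_co.InterlacingNonneg

open Pool.Agent.W_MP_308f9e_co_h1

theorem result (P : Type) [PartialOrder P] [OrderBot P] [Finite P] [GradeMinOrder ℕ P] (n : ℕ)
    (hn : 1 ≤ n) (hP : IsSimplicialOfRank P n) (hh : ∀ i, 0 ≤ (hPoly P n).coeff i) :
    Interlaces (chow P n) (chowAug P n) :=
  interlaces_of_nonneg n hn hP hh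

end Pool.Agent.Results.MP_308f9e_co.InterlacingNonneg
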