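import Pool.Agent.W_MP_308f9e_co_h1.SharedEdge

/-!
# A simplicial complex whose augmented Chow polynomial is not real-rooted

The simplicial complex consisting of two 4-simplices sharing an edge has rank `n = 5`, is connected
and pure, and its augmented Chow polynomial
`x^6 + 60 x^5 + 319 x^4 + 519 x^3 + 319 x^2 + 60 x + 1` has a non-real root.
-/

open Polynomial

namespace Pool.Agent.Results.MP_308f9e_co.NonrealRoot

open Pool.Agent.W_MP_308f9e_co_h1

theorem result :
    ∃ (P : Type) (_ : PartialOrder P) (_ : OrderBot P) (_ : GradeMinOrder ℕ P),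
      Finite P ∧ IsSimplicialOfRank P 5 ∧ ConnectedAboveBot P ∧
        chowAug P 5 = X ^ 6 + 60 * X ^ 5 + 319 * X ^ 4 + 519 * X ^ 3 + 319 * X ^ 2 + 60 * X + 1 ∧
        ∃ z : ℂ, z.im ≠ 0 ∧ aeval z (chowAug P 5) = 0 :=
  sharedEdge

end Pool.Agent.Results.MP_308f9e_co.NonrealRoot
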